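import Pool.Agent.Helper4.CB.STM
import Pool.Agent.Helper92.CB.Dens
import Pool.Agent.Helper56.CB.Conic

/-!
# CB, piece END: from the pointwise theorem to potential density
-/

set_option autoImplicit false

namespace Pool.Agent.Helper71.CB

open Polynomial AlgebraicGeometry CategoryTheory Pool.Agent.Helper15
open Pool.Agent.Helper4.CB (PointStmt)

/-- adjoining a square root of `β` to a finite extension -/
theorem exists_sqrt_ext {K L : Type} [Field K] [Field L] [Algebra K L] [FiniteDimensional K L]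
    (β : K) : ∃ (M : Type) (_ : Field M) (_ : Algebra K M) (_ : L →ₐ[K] M) (γ : M),
      FiniteDimensional K M ∧ γ ^ 2 = algebraMap K M β := by
  let g : L[X] := X ^ 2 - C (algebraMap K L β)
  have hg1 : g.degree = 2 := by
    have h1 : g.natDegree = 2 := natDegree_X_pow_sub_C
    have h0 : g ≠ 0 := by
      intro h
      rw [h] at h1
      simp at h1
    rw [degree_eq_natDegree h0, h1]
    rfl
  have hg : g.degree ≠ 0 := by
    rw [hg1]
    decide
  have hs := SplittingField.splits g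
  have hd : (g.map (algebraMap L g.SplittingField)).degree ≠ 0 := by rwa [degree_map]
  refine ⟨g.SplittingField, inferInstance, inferInstance,
    { (algebraMap L g.SplittingField) with
      commutes' := fun r => (IsScalarTower.algebraMap_apply K L g.SplittingField r).symm },
    rootOfSplits hs hd, Module.Finite.trans L _, ?_⟩
  have h1 := eval_rootOfSplits hs hd
  rw [Polynomial.eval_map, eval₂_sub, eval₂_pow, eval₂_X, eval₂_C,
    ← IsScalarTower.algebraMap_apply] at h1
  exact sub_eq_zero.1 h1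

/-- the degree of the specialised product -/
theorem natDegree_prod_map {R K : Type} [CommRing R] [Nontrivial R] [Field K] (φ : R →+* K)
    {k : ℕ} {F : Fin k → R[X]} (hF : ∀ i, (F i).Monic) (f : Fin k → ℕ) :
    (∏ i, (F i).map φ ^ f i).Monic ∧
      (∏ i, (F i).map φ ^ f i).natDegree = (∏ i, F i ^ f i).natDegree := by
  have h1 : (∏ i, F i ^ f i).Monic := monic_prod_of_monic _ _ (fun i _ => (hF i).pow _)
  have h2 : (∏ i, F i ^ f i).map φ = ∏ i, (F i).map φ ^ f i := by
    rw [Polynomial.map_prod]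
    exact Finset.prod_congr rfl (fun i _ => Polynomial.map_pow φ (f i))
  rw [← h2]
  exact ⟨h1.map φ, h1.natDegree_map φ⟩

/-- **END.** -/
theorem final (K : Type) [Field K] [NumberField K] (dm : ℕ) (hpw : PointStmt K dm)
    (R : Type) [CommRing R] [IsDomain R] [Algebra K R]
    (hR : ∀ f : R, f ≠ 0 → ∃ φ : R →ₐ[K] K, φ f ≠ 0)
    (k : ℕ) (F : Fin k → R[X]) (hF : ∀ i, (F i).Monic ∧ (F i).natDegree ≤ dm)
    (α : R) (hα : α ≠ 0) (β : K) (hβ : β ≠ 0) (e f : Fin k → ℕ)
    (hf : Even (∏ i, F i ^ f i).natDegree) (a b : R[X])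
    (ha : a = C α * ∏ i, F i ^ e i) (hb : b = C (algebraMap K R β) * ∏ i, F i ^ f i)
    (X : Scheme.{0}) (s : X ⟶ Spec (CommRingCat.of K)) [IrreducibleSpace X]
    (hX : BirationalOver K X (Spec (CommRingCat.of (MvPolynomial (Fin 2) R[X] ⧸ Ideal.span
      {(MvPolynomial.X 0 ^ 2 - MvPolynomial.C a * MvPolynomial.X 1 ^ 2 - MvPolynomial.C b :
        MvPolynomial (Fin 2) R[X])}))) s
      (Spec.map (CommRingCat.ofHom (algebraMap K (MvPolynomial (Fin 2) R[X] ⧸ Ideal.span
      {(MvPolynomial.X 0 ^ 2 - MvPolynomial.C a * MvPolynomial.X 1 ^ 2 - MvPolynomial.C b :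
        MvPolynomial (Fin 2) R[X])}))))) :
    PotentiallyDense K X s := by
  classical
  have hinj : Function.Injective (algebraMap K R) := (algebraMap K R).injective
  have hF1 : ∀ i, (F i).Monic := fun i => (hF i).1
  have hmon : ∀ g : Fin k → ℕ, (∏ i, F i ^ g i).Monic := fun g =>
    monic_prod_of_monic _ _ (fun i _ => (hF1 i).pow _)
  have ha0 : a ≠ 0 := by
    rw [ha]
    exact mul_ne_zero (C_ne_zero.2 hα) (hmon e).ne_zero
  have hb0 : b ≠ 0 := by
    rw [hb]
    exact mul_ne_zero (C_ne_zero.2 ((map_ne_zero_iff _ hinj).2 hβ)) (hmon f).ne_zero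
  obtain ⟨L, _, _, hL, hD⟩ := hpw ((∏ i, F i ^ e i).natDegree + (∏ i, F i ^ f i).natDegree)
  obtain ⟨M, _, _, ι, γ, hM, hγ⟩ := exists_sqrt_ext (K := K) (L := L) β
  have hcM : CharZero M := charZero_of_injective_algebraMap (algebraMap K M).injective
  have hγ0 : γ ≠ 0 := by
    rintro rfl
    rw [zero_pow two_ne_zero] at hγ
    exact hβ ((map_eq_zero (algebraMap K M)).1 hγ.symm)
  refine Pool.Agent.Helper92.CB.dens_of_points K M R a b ha0 hb0 (fun d hd => ?_) X s hX
  obtain ⟨φ, hφ⟩ := hR (α * d) (mul_ne_zero hα hd)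
  rw [map_mul] at hφ
  have hφα : φ α ≠ 0 := left_ne_zero_of_mul hφ
  refine ⟨φ, right_ne_zero_of_mul hφ, fun Z => ?_⟩
  set φ' : R →+* K := (φ : R →+* K) with hφ'
  obtain ⟨me, de⟩ := natDegree_prod_map φ' hF1 e
  obtain ⟨mf, df⟩ := natDegree_prod_map φ' hF1 f
  have ha' : a.map φ' = C (φ α) * ∏ i, (F i).map φ' ^ e i := by
    rw [ha, Polynomial.map_mul, Polynomial.map_C, Polynomial.map_prod]
    congr 1
    exact Finset.prod_congr rfl (fun i _ => Polynomial.map_pow φ' (e i))
  have hb' : b.map φ' = C β * ∏ i, (F i).map φ' ^ f i := by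
    rw [hb, Polynomial.map_mul, Polynomial.map_C, Polynomial.map_prod]
    congr 1
    · congr 1
      exact φ.commutes β
    · exact Finset.prod_congr rfl (fun i _ => Polynomial.map_pow φ' (f i))
  have ha1 : a.map φ' ≠ 0 := by
    rw [ha']
    exact mul_ne_zero (C_ne_zero.2 hφα) me.ne_zero
  obtain ⟨s0, hs1, hs2, hs3, x, y, z, h0, h1⟩ := hD (a.map φ') (∏ i, (F i).map φ' ^ f i) ha1 mf
    (by rw [df]; exact hf)
    (by
      rw [ha', mul_assoc, natDegree_C_mul hφα, me.natDegree_mul mf, de, df])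
    (by
      intro P hP hPd
      have hPr := hP.prime
      rw [ha', mul_assoc] at hPd
      have key : ∀ g : Fin k → ℕ, P ∣ ∏ i, (F i).map φ' ^ g i → P.natDegree ≤ dm := by
        intro g hg
        obtain ⟨i, -, hi⟩ := hPr.exists_mem_finset_dvd hg
        have h2 := natDegree_le_of_dvd (hPr.dvd_of_dvd_pow hi) ((hF1 i).map φ').ne_zero
        exact h2.trans ((natDegree_map_le).trans (hF i).2)
      rcases hPr.dvd_or_dvd hPd with h2 | h2
      · exact absurd (isUnit_of_dvd_unit h2 (isUnit_C.2 (isUnit_iff_ne_zero.2 hφα))) hPr.not_isUnit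
      · rcases hPr.dvd_or_dvd h2 with h3 | h3
        · exact key e h3
        · exact key f h3)
    (Z.preimage (algebraMap K M) ((algebraMap K M).injective.injOn))
  refine ⟨algebraMap K M s0, fun h => hs1 (by rw [Finset.mem_preimage]; exact h), ?_⟩
  have e1 : ∀ p : K[X], aeval (algebraMap K M s0) p = algebraMap K M (p.eval s0) := fun p =>
    aeval_algebraMap_apply_eq_algebraMap_eval s0 p
  rw [e1, e1]
  have hbe : (b.map φ').eval s0 = β * (∏ i, (F i).map φ' ^ f i).eval s0 := by
    rw [hb', eval_mul, eval_C]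
  have n1 : algebraMap K M ((a.map φ').eval s0) ≠ 0 := (_root_.map_ne_zero _).2 hs2
  have n2 : algebraMap K M ((b.map φ').eval s0) ≠ 0 := by
    rw [hbe]
    exact (_root_.map_ne_zero _).2 (mul_ne_zero hβ hs3)
  refine ⟨n1, n2, fun Y => ?_⟩
  have hι : ∀ r : K, ι (algebraMap K L r) = algebraMap K M r := fun r => ι.commutes r
  have h2 : (ι x) ^ 2 = algebraMap K M ((a.map φ').eval s0) * (ι y) ^ 2 +
      algebraMap K M ((b.map φ').eval s0) * (ι z / γ) ^ 2 := by
    have h3 := congrArg ι h1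
    rw [map_pow, map_add, map_mul, map_mul, map_pow, map_pow, hι, hι] at h3
    rw [h3, hbe, map_mul, div_pow, hγ]
    have hβM : algebraMap K M β ≠ 0 := (_root_.map_ne_zero _).2 hβ
    field_simp
  have hi : Function.Injective ι := (ι : L →+* M).injective
  have h3 : ι x ≠ 0 ∨ ι y ≠ 0 ∨ ι z / γ ≠ 0 := by
    rcases h0 with h | h | h
    · exact Or.inl ((map_ne_zero_iff ι hi).2 h)
    · exact Or.inr (Or.inl ((map_ne_zero_iff ι hi).2 h))
    · exact Or.inr (Or.inr (div_ne_zero ((map_ne_zero_iff ι hi).2 h) hγ0))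
  obtain ⟨x', y', hy', hx'⟩ := Pool.Agent.Helper56.CB.conic_points n1 n2 h3 h2 Y
  exact ⟨x', y', hy', hx'⟩

end Pool.Agent.Helper71.CB
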