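import Mathlib

/-!
# CB: polynomials over a domain which are coprime over the field of fractions stay coprime under
every homomorphism to a field outside a hypersurface
-/

set_option autoImplicit false

namespace Pool.Agent.Helper71.CB

open Polynomial

/-- a Bezout relation with a nonzero constant -/
theorem exists_bezout {R : Type*} [CommRing R] [IsDomain R] {P Q : R[X]}
    (h : IsCoprime (P.map (algebraMap R (FractionRing R)))
      (Q.map (algebraMap R (FractionRing R)))) :
    ∃ (c : R) (A B : R[X]), c ≠ 0 ∧ A * P + B * Q = C c := by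
  obtain ⟨A, B, hAB⟩ := h
  obtain ⟨b1, h1⟩ := IsLocalization.integerNormalization_map_to_map (nonZeroDivisors R) A
  obtain ⟨b2, h2⟩ := IsLocalization.integerNormalization_map_to_map (nonZeroDivisors R) B
  set A' := IsLocalization.integerNormalization (nonZeroDivisors R) A
  set B' := IsLocalization.integerNormalization (nonZeroDivisors R) B
  refine ⟨(b1 : R) * b2, C (b2 : R) * A', C (b1 : R) * B',
    mul_ne_zero (nonZeroDivisors.coe_ne_zero b1) (nonZeroDivisors.coe_ne_zero b2), ?_⟩
  apply Polynomial.map_injective (algebraMap R (FractionRing R))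
    (IsFractionRing.injective R (FractionRing R))
  rw [Polynomial.map_add, Polynomial.map_mul, Polynomial.map_mul, Polynomial.map_mul,
    Polynomial.map_mul, h1, h2, Polynomial.map_C, Polynomial.map_C, Polynomial.map_C, map_mul,
    C_mul]
  have e1 : ∀ (r : R) (f : (FractionRing R)[X]), r • f = C (algebraMap R (FractionRing R) r) * f := by
    intro r f
    rw [← algebraMap_smul (FractionRing R) r f, Polynomial.smul_eq_C_mul]
  rw [e1, e1]
  linear_combination (C (algebraMap R (FractionRing R) (b1 : R)) *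
    C (algebraMap R (FractionRing R) (b2 : R))) * hAB

/-- **the specialisation lemma** -/
theorem exists_gen {R : Type*} [CommRing R] [IsDomain R] {k : ℕ} (F : Fin k → R[X]) {d : R}
    (hd : d ≠ 0) : ∃ δ : R, δ ≠ 0 ∧ d ∣ δ ∧ ∀ (K : Type) [Field K] (φ : R →+* K), φ δ ≠ 0 →
      ∀ i j, IsCoprime ((F i).map (algebraMap R (FractionRing R)))
        ((F j).map (algebraMap R (FractionRing R))) → IsCoprime ((F i).map φ) ((F j).map φ) := by
  classical
  have hc : ∀ i j, ∃ c : R, c ≠ 0 ∧ (IsCoprime ((F i).map (algebraMap R (FractionRing R)))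
      ((F j).map (algebraMap R (FractionRing R))) → ∃ A B : R[X], A * F i + B * F j = C c) := by
    intro i j
    by_cases h : IsCoprime ((F i).map (algebraMap R (FractionRing R)))
      ((F j).map (algebraMap R (FractionRing R)))
    · obtain ⟨c, A, B, h1, h2⟩ := exists_bezout h
      exact ⟨c, h1, fun _ => ⟨A, B, h2⟩⟩
    · exact ⟨1, one_ne_zero, fun h' => absurd h' h⟩
  choose c hc0 hc using hc
  refine ⟨d * ∏ i, ∏ j, c i j, mul_ne_zero hd (Finset.prod_ne_zero_iff.2 fun i _ =>
    Finset.prod_ne_zero_iff.2 fun j _ => hc0 i j), dvd_mul_right _ _, ?_⟩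
  intro K _ φ hφ i j hij
  obtain ⟨A, B, hAB⟩ := hc i j hij
  have h1 : φ (c i j) ≠ 0 := by
    have h2 : c i j ∣ d * ∏ i, ∏ j, c i j :=
      ((Finset.dvd_prod_of_mem (c i) (Finset.mem_univ j)).trans
        (Finset.dvd_prod_of_mem (fun i => ∏ j, c i j) (Finset.mem_univ i))).trans
          (dvd_mul_left _ _)
    intro h3
    obtain ⟨e, he⟩ := h2
    rw [he, map_mul, h3, zero_mul] at hφ
    exact hφ rfl
  refine ⟨C (φ (c i j))⁻¹ * A.map φ, C (φ (c i j))⁻¹ * B.map φ, ?_⟩
  have h2 := congrArg (Polynomial.map φ) hAB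
  rw [Polynomial.map_add, Polynomial.map_mul, Polynomial.map_mul, Polynomial.map_C] at h2
  calc _ = C (φ (c i j))⁻¹ * (A.map φ * (F i).map φ + B.map φ * (F j).map φ) := by ring
    _ = 1 := by rw [h2, ← C_mul, inv_mul_cancel₀ h1, C_1]

end Pool.Agent.Helper71.CB
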